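import Mathlib
import Pool.Agent.W484.AA.Main

/-!
# The formula of Beilinson and Bloch for almost all isogeny classes of abelian varieties

Let `g i` (`i` in a finite set `I`) be positive integers.  For a prime power `q` let `S i` be the
set of the characteristic polynomials of Frobenius of the ordinary abelian varieties of dimension
`g i` over the field with `q` elements, or of those of `p`-rank larger than a third of `g i`, or any
set in between.  By Weil, Honda and Tate its elements correspond to the isogeny classes, the first
set contains the set `ordinaryWeilPolys q (g i)`, and the second one is contained in
`largeRankWeilPolys q (g i)`.

For all families `f i` in `S i` with the exception of a proportion `O (q ^ (-1 / 6) log q)` the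
following holds for all abelian varieties `A` over the field with `q` elements, isogenous to a
product of powers of abelian varieties `A i` with characteristic polynomials `f i`, and for
**every** global function field `k` which contains the field with `q` elements, that is, for the
function field `k` of any smooth projective geometrically connected curve `C` over the field with
`q ^ s` elements, `s > 0` arbitrary: the order of vanishing of `L (H ^ (2 i - 1) (A_k), s)` at
`s = i` is equal to the dimension of the space `algebraicClasses` of the classes in
`H ^ (2 i - 1) (A) ⊗ H ^ 1 (C)` which are linear combinations of products of `i - 1` classes of
divisors on `A` and a correspondence between `A` and `C`, for all `i = k + 1 ≥ 1`.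

Here `V` is the first cohomology of `A` with the Frobenius endomorphism `F` of the field with `q`
elements, `W` the first cohomology of `C` with its Frobenius endomorphism `G` (of the field with
`q ^ s` elements), `P` is the set of closed points of `C`, that is, of places of `k`. As in
`ConstantFlippedFrobenius` the theorems of Tate and of Kahn imply that the dimension of
`algebraicClasses` is that of `CH ^ i (A_k)_0`: the formula of Beilinson and Bloch holds.

The idea of the proof: by a sieve (helper521) almost all families are such that each pair `α`,
`q / α` of roots can be exchanged by a Galois automorphism which fixes all the other roots of all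
the `f i`. If a product of roots, no two with product `q`, and of a number `ρ` with
`|ρ| ^ 2 = q ^ s`, integral, is a power of `q` up to a root of unity, then the flips show that the
sum of the absolute values of the deviations of the slopes from one half is at most one half (the
deviation of `ρ`); in the mean over the Galois group each root contributes more than a sixth, so
there are at most two roots.
-/

set_option autoImplicit false

namespace Pool.Agent.Results.MP_0b9e0b_ag.AlmostAllAbelianVarieties

open Polynomial Pool.Agent.W521.Descent Pool.Agent.W521.Count Pool.Agent.W484.AA

/-- `weilPolys q g` is the set of monic integral polynomials of degree `2 g` with constant term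
`q ^ g` and all roots of absolute value `√q`; `ordinaryWeilPolys q g` is the subset of those
whose coefficient of index `g` is prime to `q`, and `largeRankWeilPolys q g` the subset of those
with a coefficient of index `2 g - r`, `g / 3 < r ≤ g`, prime to `q` (`p`-rank at least `r`). -/
theorem result {I : Type} [Fintype I] (g : I → ℕ) (hg : ∀ i, 0 < g i) :
    ∃ C : ℝ, ∀ q : ℕ, IsPrimePow q → ∀ S : I → Set ℤ[X],
      (∀ i, ordinaryWeilPolys q (g i) ⊆ S i ∧ S i ⊆ largeRankWeilPolys q (g i)) →
      (∀ i, (S i).Finite ∧ (S i).Nonempty) ∧
      ({f : I → ℤ[X] | (∀ i, f i ∈ S i) ∧ ¬ BeilinsonBlochFormula q f}.ncard : ℝ) ≤
        C * (Real.log q * (q : ℝ) ^ (-(1 / 6) : ℝ)) * ∏ i, ((S i).ncard : ℝ) :=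
  formula_count_between g hg

end Pool.Agent.Results.MP_0b9e0b_ag.AlmostAllAbelianVarieties
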