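import Mathlib
import Pool.Agent.W484.BB.Main

/-!
# The formula of Beilinson and Bloch for constant abelian varieties over function fields

Let `q = p ^ a`, let `A` be an abelian variety and `C` a smooth projective geometrically connected
curve over the field with `q` elements, `k` the function field of `C` and `X = A_k`. Every global
function field with field of constants of `q` elements is such a `k`.

`V` is the first cohomology of `A` and `W` the first cohomology of `C` (coefficients extended to
the complex numbers), `F` and `G` are the Frobenius endomorphisms, `P` is the set of closed points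
of `C`, that is, of places of `k`, and `deg` is the degree; the number of points of `C` over the
extension of degree `m` is the sum of the degrees of the closed points of degree dividing `m` and
is equal to `1 + q ^ m - trace (G ^ m)`. The eigenvalues of `G` are Weil numbers; nothing else
is supposed about `C`.

The eigenvalues of `F` are conjugates of finitely many numbers `π i` in CM fields `K i`, and numbers
in a set `S` of supersingular Weil numbers (`S` may be empty). We suppose:

* any two embeddings `x`, `y` of the fields `K i` in the complex numbers, which are different and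
  not conjugate, are `Flipped`: an automorphism of the complex numbers maps `(x, y)` to
  `(x, bar y)`, to `(bar x, y)` or to `(y, bar x)` (generic Galois groups);
* `deg (K i) < 3 * spread`, where `spread` is the sum of the `(2 * slope - 1) ^ 2` over all the
  embeddings of `K i` in an algebraic closure of the field of `p`-adic numbers; for instance this
  holds if the `p`-rank is larger than a third of the dimension (ordinary: `spread = deg (K i)`);
* `deg (K i) < 2 * spread` if `S` is not empty.

All products of elliptic curves are covered, and in each dimension infinitely many simple abelian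
varieties; the powers of `A` are covered together with `A`.

Since `A` has good reduction, `L (H ^ (2 k + 1) (X), s)` is the product over `v` in `P` of
`det (1 - (q ^ (- s)) ^ deg v • (⋀ ^ (2 k + 1) F) ^ deg v)⁻¹`. The theorem says, for all
`k ≥ 0` (the codimension is `i = k + 1`): this product converges for `Re s > i + 1 / 2`, has a
meromorphic continuation to the complex plane, and the order of the continuation at `s = i` is the
dimension of `algebraicClasses`: the space of classes in `H ^ (2 i - 1) (A) ⊗ H ^ 1 (C)` on which
the Frobenius acts as `q ^ i` and which are linear combinations of products of `i - 1` classes of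
divisors on `A` and a correspondence between `A` and `C` (all defined over extensions of the base
field).

By the theorem of Tate, a class in degree two of an abelian variety which is a Tate class over some
extension is a linear combination of classes of divisors, so that all of `algebraicClasses` comes
from cycles of codimension `i` on `A × C`, and these give homologically trivial cycles on `X`. By
the theorem of Kahn (based on Kimura, O'Sullivan, Soulé, Geisser) a motive of abelian type over a
finite field all of whose Tate classes are algebraic has no other cycles modulo rational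
equivalence; so the dimension is that of `CH ^ i (X)_0`, and the formula of Beilinson and Bloch holds
for `X`, for all `i`.

The idea of the proof: if a product of conjugates of the `π i` and of an arbitrary Weil number `ρ` is
a power of `q` up to roots of unity, then at each place the slopes of the conjugates differ from
one half, in total, by at most the contribution of `ρ`, which is bounded by `1`; if no two are
conjugate, the flips imply that the contributions are orthogonal in the mean over the Galois group,
so the sum of the mean squares is at most `1`.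
-/

set_option autoImplicit false

namespace Pool.Agent.Results.MP_0b9e0b_ag.ConstantFlippedFrobenius

open NumberField Module Pool.Agent.H194R3.CM Pool.Agent.W484.BB

theorem result (p : ℕ) [Fact p.Prime] (a : ℕ) (ha : 0 < a)
    {I : Type} [Finite I] (K : I → Type) [∀ i, Field (K i)] [∀ i, NumberField (K i)]
    [∀ i, IsCMField (K i)] (π : ∀ i, K i)
    (hweil : ∀ i, ∀ φ : K i →+* ℂ, ‖φ (π i)‖ ^ 2 = (p : ℝ) ^ a)
    (hflip : ∀ x y : Σ i, (K i →+* ℂ), y ≠ x → y ≠ bar x → Flipped x y)
    (hspread : ∀ i, (finrank ℚ (K i) : ℝ) < 3 * spread p a (π i))
    (S : Set ℂ) (hS : ∀ μ ∈ S, ∃ N : ℕ, 0 < N ∧ μ ^ (2 * N) = ((p : ℂ) ^ a) ^ N)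
    (hSspread : S.Nonempty → ∀ i, (finrank ℚ (K i) : ℝ) < 2 * spread p a (π i))
    {V : Type} [AddCommGroup V] [Module ℂ V] [FiniteDimensional ℂ V] (F : V →ₗ[ℂ] V)
    (hF : Submodule.span ℂ {v : V | (∃ i, ∃ σ : K i →+* ℂ, F v = σ (π i) • v) ∨
      ∃ μ ∈ S, F v = μ • v} = ⊤)
    {W : Type} [AddCommGroup W] [Module ℂ W] [FiniteDimensional ℂ W] (G : W →ₗ[ℂ] W)
    (hG : Submodule.span ℂ {w : W | ∃ ρ : ℂ, (IsIntegral ℤ ρ ∧ ‖ρ‖ ^ 2 = (p : ℝ) ^ a) ∧
      G w = ρ • w} = ⊤)
    {P : Type} (deg : P → ℕ) (hdeg : ∀ v, 0 < deg v)
    (hfin : ∀ m, 0 < m → {v | deg v ∣ m}.Finite)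
    (hcount : ∀ m (hm : 0 < m), (∑ v ∈ (hfin m hm).toFinset, (deg v : ℂ)) =
      1 + ((p : ℂ) ^ a) ^ m - LinearMap.trace ℂ W (G ^ m))
    (k : ℕ) :
    ∃ Λ : ℂ → ℂ, (∀ s, MeromorphicAt Λ s) ∧
      (∀ s : ℂ, (k : ℝ) + 1 + 1 / 2 < s.re →
        HasProd (fun v => (LinearMap.det (1 - (((p : ℂ) ^ a) ^ (-s)) ^ deg v •
          exteriorPower.map (2 * k + 1) F ^ deg v))⁻¹) (Λ s)) ∧
      meromorphicOrderAt Λ ((k : ℂ) + 1) =
        ((finrank ℂ (algebraicClasses F G ((p : ℂ) ^ a) k) : ℤ) : WithTop ℤ) := by
  have hp0 : (0 : ℝ) < (p : ℝ) ^ a := pow_pos (by exact_mod_cast (Fact.out : p.Prime).pos) _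
  refine main p a ha F ?_ G hG deg hdeg hfin hcount k ?_
  · rw [eq_top_iff, ← hF]
    refine Submodule.span_mono ?_
    rintro v (⟨i, σ, hv⟩ | ⟨μ, hμ, hv⟩)
    · exact ⟨σ (π i), hweil i σ, hv⟩
    · refine ⟨μ, ?_, hv⟩
      obtain ⟨N, hN, h1⟩ := hS μ hμ
      have h2 := congrArg norm h1
      rw [norm_pow, norm_pow, norm_pow, Complex.norm_natCast, pow_mul] at h2
      exact (pow_left_inj₀ (by positivity) hp0.le hN.ne').1 h2
  · intro ρ hρ hρn x hx hFx
    have hρ0 : ρ ≠ 0 := by
      rintro rfl
      rw [norm_zero] at hρn
      norm_num at hρn
      exact hp0.ne hρn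
    refine eigenclass_mem p a ha π hweil hflip hspread S hS hSspread F hF ρ hρ hρn k 1 one_pos
      (((p : ℂ) ^ a) ^ (k + 1) / ρ) ?_ x hx ?_
    · rw [pow_one, pow_one, div_mul_cancel₀ _ hρ0]
    · rw [pow_one]
      exact hFx

end Pool.Agent.Results.MP_0b9e0b_ag.ConstantFlippedFrobenius
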