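import Pool.Agent.W495.FM.Global

/-!
# The conjecture of Beilinson and Bloch over global function fields

Let `K` be the function field of a smooth projective curve `C` over the field with `q` elements and
let `X` be a smooth projective variety over `K`. We prove the conjecture of Beilinson and Bloch for `X`
in all codimensions `c`: the space `CH^c(X)_0` of homologically trivial cycles is finite-dimensional
and its dimension is the order of vanishing at `s = c` of `L(H^(2 c - 1)(X), s)`, if the smooth
projective models of `X` over the nonempty open subsets `U` of (an open subset of) `C` belong to the
class generated by small abelian varieties over the finite extensions of the ground field.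

An abelian variety over a finite field is small if its dimension is at most four, or if it is (over an
algebraic closure) isogenous to the product of a power of a simple abelian variety of dimension at
most five and of a supersingular abelian variety, or if it is a product of abelian varieties of
dimension at most three, with a condition on the Galois closures of their CM fields (`IsSmall`). The
Newton polygon is arbitrary. The class is the smallest one that contains these, direct summands (of
motives), and all of `Z`, `X`, `X ∖ Z` if it contains two of them (`Generated`).

Examples: `X = A ×_k K` for an abelian variety `A` over the finite field `k` and a curve `C` such that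
`A × Jac C` is small, for instance `dim A + genus C ≤ 4`, or `A = B^m` and `Jac C` isogenous to `B^n`
times a supersingular abelian variety, `B` simple of dimension at most five; the twists of such `X` by
finite groups (isotrivial varieties: direct summands); varieties dominated by them, and projective
bundles and blow-ups over them.
-/

namespace Pool.Agent.Results.MP_0b9e0b_ag.GeneratedBySmallAbelian

open Pool.Agent.W495.TA Pool.Agent.W495.FM

/-- The conjecture of Beilinson and Bloch holds for `X` (in the codimension `D.c`) if the models
`D.X U` and a closed fibre `Z` belong to the class generated by small abelian varieties. -/
theorem result (p : ℕ) [Fact p.Prime] (ν : PadicAlgCl p ≃+* ℂ) (V : Type) (T : Homology ℂ V)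
    (hT : IsHomology T) (D : OverK T) (hD : HasLFunction D) (hM : HasModels D)
    (hX : ∀ U, Generated T (IsSmallOver p ν T) (D.X U)) (U₀ : D.O) (Z : V) (i j : ℤ)
    (h : Hom T (D.X U₀) (2 * D.j) D.j Z i j) (hh : IsFibre D U₀ h)
    (hZ : Generated T (IsSmallOver p ν T) Z) : BeilinsonBloch D :=
  beilinsonBloch_small hT D hD hM hX U₀ Z i j h hh hZ

end Pool.Agent.Results.MP_0b9e0b_ag.GeneratedBySmallAbelian
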