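import Mathlib
import Pool.Agent.W484.BB.SmallMain

/-!
# Vanishing in all codimensions over function fields of small genus

Let `q = p ^ a`, let `A` be an abelian variety and `C` a smooth projective geometrically connected
curve over the field with `q` elements, `k` the function field of `C` and `X = A_k`. `V` is the
first cohomology of `A` and `W` the first cohomology of `C` (coefficients extended to the complex
numbers), `F` and `G` are the Frobenius endomorphisms, `P` is the set of closed points of `C`, that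
is, of places of `k`, and `deg` is the degree.

The eigenvalues of `F` are conjugates of finitely many numbers `π i` in CM fields `K i`, none of
them supersingular (for each `i` some slope of `π i` is different from one half). We suppose that
any two embeddings `x`, `y` of the fields `K i` in the complex numbers, which are different and
not conjugate, are `Flipped`: an automorphism of the complex numbers maps `(x, y)` to
`(x, bar y)`, to `(bar x, y)` or to `(y, bar x)`. There is no other condition on the slopes. Typical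
example: `A` is a product of powers of simple abelian varieties with generic Galois groups.

Suppose that `2 g (C) = dim W` is smaller than the degree of `K i` for all `i`, that is, the genus
of `C` is smaller than the dimensions of the absolutely simple factors of `A`. Then, for all
`i = k + 1 ≥ 1`:

* there are no non-zero classes in `H ^ (2 i - 1) (A) ⊗ H ^ 1 (C)` on which the Frobenius acts
  as multiplication by `q ^ i`, even over a finite extension of the base field. By the results of
  Soulé and Kimura on motives of abelian type this implies that `CH ^ i (X)_0 = 0`: the motive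
  `h ^ (2 i - 1) (A) ⊗ h ^ 1 (C)` is finite-dimensional, so some power of the characteristic
  polynomial of its Frobenius vanishes on it, but the Frobenius acts as `q ^ i` on cycles of
  codimension `i`;
* the Euler product of `L (H ^ (2 i - 1) (X), s)` converges for `Re s > i + 1 / 2` to a
  meromorphic function on the complex plane, which is analytic and not zero at `s = i`.

So the formula of Beilinson and Bloch holds for `X` in all codimensions, both sides being zero.

For `i = 1` this is clear since a simple factor of `A` of dimension larger than the genus cannot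
be a quotient of the Jacobian of `C`. For `i > 1` it is not formal: other factors of
`H ^ (2 i - 1) (A)` could have a smaller degree (if a field `K i` contains an imaginary quadratic
field this indeed happens).

The idea of the proof: if a product of conjugates of the `π i` and of a Weil number `ρ` is a
power of `q` up to roots of unity, the slopes of the conjugates of `ρ` define an equivariant
function on (conjugates of `ρ`) × (embeddings of some `K i`), which is odd in both variables, and the
flips imply that its columns are orthogonal.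
-/

set_option autoImplicit false

namespace Pool.Agent.Results.MP_0b9e0b_ag.SmallGenusVanishing

open NumberField Module TensorProduct Pool.Agent.H925R2 Pool.Agent.H194R3.CM Pool.Agent.H485R3
  Pool.Agent.W484.BB

theorem result (p : ℕ) [Fact p.Prime] (a : ℕ) (ha : 0 < a)
    {I : Type} [Finite I] (K : I → Type) [∀ i, Field (K i)] [∀ i, NumberField (K i)]
    [∀ i, IsCMField (K i)] (π : ∀ i, K i)
    (hweil : ∀ i, ∀ φ : K i →+* ℂ, ‖φ (π i)‖ ^ 2 = (p : ℝ) ^ a)
    (hflip : ∀ x y : Σ i, (K i →+* ℂ), y ≠ x → y ≠ bar x → Flipped x y)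
    (hspread : ∀ i, 0 < spread p a (π i))
    {V : Type} [AddCommGroup V] [Module ℂ V] [FiniteDimensional ℂ V] (F : V →ₗ[ℂ] V)
    (hF : Submodule.span ℂ {v : V | ∃ i, ∃ σ : K i →+* ℂ, F v = σ (π i) • v} = ⊤)
    {W : Type} [AddCommGroup W] [Module ℂ W] [FiniteDimensional ℂ W] (G : W →ₗ[ℂ] W)
    (hG : Submodule.span ℂ {w : W | ∃ ρ : ℂ, ‖ρ‖ ^ 2 = (p : ℝ) ^ a ∧ G w = ρ • w} = ⊤)
    (f : Polynomial ℤ) (hf : G.charpoly = f.map (Int.castRingHom ℂ))
    (hsmall : ∀ i, finrank ℂ W < finrank ℚ (K i))
    {P : Type} (deg : P → ℕ) (hdeg : ∀ v, 0 < deg v)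
    (hfin : ∀ m, 0 < m → {v | deg v ∣ m}.Finite)
    (hcount : ∀ m (hm : 0 < m), (∑ v ∈ (hfin m hm).toFinset, (deg v : ℂ)) =
      1 + ((p : ℂ) ^ a) ^ m - LinearMap.trace ℂ W (G ^ m))
    (k : ℕ) :
    (∀ s : ℕ, 0 < s → ∀ t : (⋀[ℂ]^(2 * k + 1) V) ⊗[ℂ] W,
      TensorProduct.map (exteriorPower.map (2 * k + 1) F ^ s) (G ^ s) t =
        ((p : ℂ) ^ a) ^ ((k + 1) * s) • t → t = 0) ∧
    ∃ Λ : ℂ → ℂ, (∀ s, MeromorphicAt Λ s) ∧
      (∀ s : ℂ, (k : ℝ) + 1 + 1 / 2 < s.re →
        HasProd (fun v => (LinearMap.det (1 - (((p : ℂ) ^ a) ^ (-s)) ^ deg v •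
          exteriorPower.map (2 * k + 1) F ^ deg v))⁻¹) (Λ s)) ∧
      AnalyticAt ℂ Λ ((k : ℂ) + 1) ∧ Λ ((k : ℂ) + 1) ≠ 0 := by
  classical
  have hq : (1 : ℝ) < (p : ℝ) ^ a :=
    one_lt_pow₀ (by exact_mod_cast (Fact.out : p.Prime).one_lt) ha.ne'
  have hq0 : (0 : ℝ) < (p : ℝ) ^ a := by linarith
  have hcast : (((p : ℝ) ^ a : ℝ) : ℂ) = (p : ℂ) ^ a := by push_cast; rfl
  have hns : ∀ i, ∃ τ : K i →+* PadicAlgCl p, dev p ((p : ℚ) ^ a) (τ (π i)) ≠ 0 := by
    intro i
    have h1 := hspread i
    by_contra hno
    push Not at hno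
    have h2 : spread p a (π i) = 0 := by
      unfold spread
      refine Finset.sum_eq_zero fun τ _ => ?_
      have h3 := hno τ
      rw [dev_pow p a ha] at h3
      have h4 : - Real.log ((p : ℝ) ^ a) ≠ 0 := (neg_neg_of_pos (Real.log_pos hq)).ne
      rcases mul_eq_zero.1 h3 with h5 | h5
      · exact absurd h5 h4
      · have h6 : 2 * (- Real.logb ((p : ℝ) ^ a) ‖τ (π i)‖) - 1 = 0 := by linarith
        rw [h6]
        norm_num
    rw [h2] at h1
    exact lt_irrefl _ h1
  let val : (Σ i, (K i →+* ℂ)) → ℂ := fun x => x.2 (π x.1)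
  have hF' : Submodule.span ℂ {v : V | ∃ x, F v = val x • v} = ⊤ := by
    rw [← hF]
    congr 1
    ext v
    constructor
    · rintro ⟨x, h⟩
      exact ⟨x.1, x.2, h⟩
    · rintro ⟨i, σ, h⟩
      exact ⟨⟨i, σ⟩, h⟩
  obtain ⟨r', b', α, hα, hb'⟩ := exists_eigenbasis_list F val hF' (2 * k + 1)
  obtain ⟨r, b, c, hc, hb⟩ := Pool.Agent.W484.BB.exists_eigenbasis G {ρ : ℂ | ‖ρ‖ ^ 2 = (p : ℝ) ^ a} hG
  have hc' : ∀ j, IsIntegral ℤ (c j) ∧ (minpoly ℚ (c j)).natDegree ≤ finrank ℂ W :=
    fun j => integral_of_charpoly G f hf (b j) (b.ne_zero j) (c j) (hb j)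
  have hno : ∀ s : ℕ, 0 < s → ∀ j l, (c l * α j) ^ s ≠ (((p : ℂ) ^ a) ^ (k + 1)) ^ s := by
    intro s hs j l
    obtain ⟨L, hL, hLα⟩ := hα j
    rw [hLα, mul_comm]
    exact no_list p a π hweil hflip hns (c l) (hc' l).1 (hc l)
      (fun i => lt_of_le_of_lt (hc' l).2 (hsmall i)) s hs k L hL
  have hαn : ∀ j, ‖α j‖ ^ 2 = ((p : ℝ) ^ a) ^ (2 * k + 1) := by
    intro j
    obtain ⟨L, hL, hLα⟩ := hα j
    rw [hLα, ← hL]
    clear hL hLα
    induction L with
    | nil => simp
    | cons x L ih =>
      rw [List.map_cons, List.prod_cons, norm_mul, mul_pow, ih, hweil, List.length_cons, pow_succ']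
  refine ⟨?_, Lam ((p : ℝ) ^ a) c α, meromorphic_Lam _ hq0 c α, ?_, ?_⟩
  · intro s hs t ht
    refine eq_zero_of_tensor (exteriorPower.map (2 * k + 1) F ^ s) b' (fun j => α j ^ s)
      (fun j => pow_apply_eigen _ _ _ (hb' j) s) (G ^ s) b (fun j => c j ^ s)
      (fun j => pow_apply_eigen _ _ _ (hb j) s) (((p : ℂ) ^ a) ^ ((k + 1) * s)) ?_ t ht
    intro j l hjl
    apply hno s hs j l
    rw [mul_pow, hjl, pow_mul]
  · intro s hs
    have hcount' : ∀ m (hm : 0 < m), (∑ v ∈ (hfin m hm).toFinset, (deg v : ℂ)) =
        1 + (((p : ℝ) ^ a : ℝ) : ℂ) ^ m - ∑ k, c k ^ m := by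
      intro m hm
      rw [hcount m hm, trace_pow G b c hb, hcast]
    have h1 := hasProd_Lam deg hdeg hfin c _ hq (fun k => hc k) hcount' α (2 * k + 1) hαn s
      (by push_cast; linarith)
    convert h1 using 2 with v
    rw [det_one_sub (exteriorPower.map (2 * k + 1) F) b' α hb', hcast]
  · have h2 := analyticAt_Lam ((p : ℝ) ^ a) hq c α (k + 1) (by
      intro j
      rw [hαn j, ← pow_succ]
      congr 1) (by
      intro j l h3
      apply hno 1 one_pos j l
      rw [pow_one, pow_one, h3, hcast])
    have h3 : (((k + 1 : ℕ) : ℕ) : ℂ) = (k : ℂ) + 1 := by push_cast; rfl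
    rw [h3] at h2
    exact h2

end Pool.Agent.Results.MP_0b9e0b_ag.SmallGenusVanishing
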