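import Mathlib
import Pool.Agent.W484.BB.Three6

/-!
# The formula of Beilinson and Bloch in codimension two for constant abelian threefolds

Let `q = p ^ a`, let `A` be an abelian variety of dimension three and of `p`-rank at least two
over the field with `q` elements (for example any ordinary abelian threefold, simple or not), `C`
a smooth projective geometrically connected curve over the field with `q` elements, `k` the
function field of `C` and `X = A_k`. There is no condition on the Galois groups of the Weil
numbers, and no condition on `C`: `k` is an arbitrary global function field.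

`V` is the first cohomology of `A` and `W` the first cohomology of `C` (coefficients extended to
the complex numbers), `F` and `G` are the Frobenius endomorphisms (both diagonalizable, with
eigenvalues of absolute value the square root of `q`). The characteristic polynomial of `F` is
the product of the `(X - α j) (X - conj (α j))`, `j = 0, 1, 2`, and is equal to
`f = X ^ 6 + a₁ X ^ 5 + a₂ X ^ 4 + a₃ X ^ 3 + ...` with integral coefficients; the `p`-rank of `A` is
at least two if and only if one of `a₂`, `a₃` is not divisible by `p`. `P` is the set of closed points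
of `C`, that is, of places of `k`, and `deg` is the degree.

The theorem says: the Euler product of `L (H ^ 3 (X), s)` converges for `Re s > 5 / 2`, has a
meromorphic continuation to the complex plane, and its order at `s = 2` is the dimension of the
space `divisorialOrWeil` of classes in `H ^ 3 (A) ⊗ H ^ 1 (C)` on which the Frobenius acts as
`q ^ 2` and which are linear combinations of

* products of a divisor class on `A` and a correspondence between `A` and `C`, and of
* classes of Weil type: `v₀ ∧ v₁ ∧ v₂ ⊗ w` with eigenvectors whose eigenvalues `γ j` and `ρ`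
  satisfy: `γ₀, γ₁, γ₂` and their complex conjugates are all the eigenvalues of `F`, and
  `(X - γ₀) (X - γ₁) (X - γ₂)` and `ρ` have coefficients in an imaginary quadratic field `E`.

The classes of the first kind are algebraic by the theorem of Tate. Classes of Weil type exist only
if the characteristic polynomial of `F` is the product of two conjugate polynomials over an
imaginary quadratic field `E`, and the Jacobian of `C` has a factor whose Frobenius is in `E`; in all
other cases the theorem gives, with the theorem of Kahn on rational and numerical equivalence, the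
formula of Beilinson and Bloch: the dimension of `CH ^ 2 (X)_0` is the order of `L (H ^ 3 (X), s)`
at `s = 2`. If `A` is ordinary, the classes of Weil type come from Weil classes on the abelian
fourfolds `A × E'`, where `E'` is an elliptic curve with complex multiplication by `E`, and they
are algebraic by the theorem of Markman on Weil classes on abelian fourfolds (via canonical lifts).

The idea of the proof: let `y₀ y₁ y₂ ρ = q ^ 2`, where no product of two of the `y j` is a root of
unity times `q`. At each place the deviations `u j` of the slopes of the `y j` from one half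
satisfy `|u₀ + u₁ + u₂| ≤ 1/2`. If an automorphism of the field changes, for example, exactly `y₀` to
its complex conjugate (up to a permutation), we also have `|- u₀ + u₁ + u₂| ≤ 1/2` at each place;
since two of the `u j` are `± 1/2`, this implies `u₁ + u₂ = 0` at each place, so `y₁ y₂ / q` is a
root of unity. Hence every automorphism preserves `(y₀, y₁, y₂)` up to permutations and complex
conjugation.
-/

set_option autoImplicit false

namespace Pool.Agent.Results.MP_0b9e0b_ag.ThreefoldsCodimTwo

open Module Pool.Agent.W484.BB

theorem result (p : ℕ) [Fact p.Prime] (a : ℕ) (ha : 0 < a)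
    {V : Type} [AddCommGroup V] [Module ℂ V] [FiniteDimensional ℂ V] (F : V →ₗ[ℂ] V)
    (hF : Submodule.span ℂ {v : V | ∃ α : ℂ, ‖α‖ ^ 2 = (p : ℝ) ^ a ∧ F v = α • v} = ⊤)
    (α : Fin 3 → ℂ) (hα : ∀ j, ‖α j‖ ^ 2 = (p : ℝ) ^ a)
    (hchar : F.charpoly = ∏ j, ((Polynomial.X - Polynomial.C (α j)) *
      (Polynomial.X - Polynomial.C ((starRingEnd ℂ) (α j)))))
    (f : Polynomial ℤ) (hf : F.charpoly = f.map (Int.castRingHom ℂ))
    (hrank : ¬ (p : ℤ) ∣ f.coeff 4 ∨ ¬ (p : ℤ) ∣ f.coeff 3)
    {W : Type} [AddCommGroup W] [Module ℂ W] [FiniteDimensional ℂ W] (G : W →ₗ[ℂ] W)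
    (hG : Submodule.span ℂ {w : W | ∃ ρ : ℂ, (IsIntegral ℤ ρ ∧ ‖ρ‖ ^ 2 = (p : ℝ) ^ a) ∧
      G w = ρ • w} = ⊤)
    {P : Type} (deg : P → ℕ) (hdeg : ∀ v, 0 < deg v)
    (hfin : ∀ m, 0 < m → {v | deg v ∣ m}.Finite)
    (hcount : ∀ m (hm : 0 < m), (∑ v ∈ (hfin m hm).toFinset, (deg v : ℂ)) =
      1 + ((p : ℂ) ^ a) ^ m - LinearMap.trace ℂ W (G ^ m)) :
    ∃ Λ : ℂ → ℂ, (∀ s, MeromorphicAt Λ s) ∧
      (∀ s : ℂ, (5 : ℝ) / 2 < s.re →
        HasProd (fun v => (LinearMap.det (1 - (((p : ℂ) ^ a) ^ (-s)) ^ deg v •
          exteriorPower.map 3 F ^ deg v))⁻¹) (Λ s)) ∧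
      meromorphicOrderAt Λ 2 =
        ((finrank ℂ (divisorialOrWeil F G ((p : ℂ) ^ a)) : ℤ) : WithTop ℤ) := by
  obtain ⟨Λ, h1, h2, h3⟩ := main0 p a ha F hF G (by
    rw [eq_top_iff, ← hG]
    refine Submodule.span_mono ?_
    rintro w ⟨ρ, ⟨_, h1⟩, h2⟩
    exact ⟨ρ, h1, h2⟩) deg hdeg hfin hcount 1
  refine ⟨Λ, h1, ?_, ?_⟩
  · intro s hs
    refine h2 s ?_
    push_cast
    linarith
  · have h4 : ((1 : ℕ) : ℂ) + 1 = 2 := by push_cast; norm_num
    rw [h4] at h3
    rw [h3, threefold_eq p a ha F hF α hα hchar f hf hrank G hG, finrank_map_incl]

end Pool.Agent.Results.MP_0b9e0b_ag.ThreefoldsCodimTwo
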